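import Mathlib
import Pool.Agent.W5h67.TR.Half2

set_option autoImplicit false
open MeasureTheory

namespace Pool.Agent.Results.MP_cfac66_an.MeasureAboveHalf

/-- **Multiple recurrence for three arbitrary transformations and sets of measure larger than
one half.**  (Not necessarily invertible maps; for every probability space.) -/
theorem result :
    ∀ (Ω : Type) [MeasurableSpace Ω] (μ : Measure Ω) [IsProbabilityMeasure μ]
      (T S R : Ω → Ω),
      MeasurePreserving T μ μ → MeasurePreserving S μ μ → MeasurePreserving R μ μ →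
      ∀ A : Set Ω, MeasurableSet A → 1 / 2 < μ.real A →
        ∃ m n : ℕ, 1 ≤ m ∧ 1 ≤ n ∧
          μ (A ∩ T^[m] ⁻¹' A ∩ S^[m + n] ⁻¹' A ∩ R^[m + 2 * n] ⁻¹' A) ≠ 0 := by
  intro Ω _ μ _ T S R hT hS hR A hA ha
  exact W5h67.TR.half_rec μ T S R hT hS hR A hA ha

end Pool.Agent.Results.MP_cfac66_an.MeasureAboveHalf
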