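import Mathlib
import Pool.Agent.W5h67.TR.Main

set_option autoImplicit false
open MeasureTheory Filter

namespace Pool.Agent.Results.MP_cfac66_an.TwoCommute

/-- Some positive powers `S^a` and `R^b` of the two maps commute (everywhere).  For `a = b = 1`
this says that `S` and `R` commute. -/
def SomePowersCommute {Ω : Type} (S R : Ω → Ω) : Prop :=
  ∃ a b : ℕ, 1 ≤ a ∧ 1 ≤ b ∧ ∀ x, S^[a] (R^[b] x) = R^[b] (S^[a] x)

/-- The upper mean `limsup_N (1/N) ∑_{k ≤ N} μ (A ∩ S^{-k} A ∩ R^{-2k} A)` is positive: for some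
`c > 0` there are arbitrarily large `N` with `c N ≤ ∑_{k ≤ N} μ (A ∩ S^{-k} A ∩ R^{-2k} A)`. -/
def PositiveUpperMean {Ω : Type} [MeasurableSpace Ω] (μ : Measure Ω) (S R : Ω → Ω)
    (A : Set Ω) : Prop :=
  ∃ c : ℝ, 0 < c ∧ ∃ᶠ N : ℕ in atTop,
    c * N ≤ ∑ k ∈ Finset.Icc 1 N, μ.real (A ∩ S^[k] ⁻¹' A ∩ R^[2 * k] ⁻¹' A)

/-- **Multiple recurrence for three non-commuting transformations when `T` is arbitrary and some
powers of `S` and `R` commute**, and more generally for every set `A` for which the upper mean of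
`μ (A ∩ S^{-k} A ∩ R^{-2k} A)` is positive. -/
theorem result :
    ∀ (Ω : Type) [MeasurableSpace Ω] (μ : Measure Ω) [IsProbabilityMeasure μ]
      (T S R : Ω ≃ᵐ Ω),
      MeasurePreserving T μ μ → MeasurePreserving S μ μ → MeasurePreserving R μ μ →
      ∀ A : Set Ω, MeasurableSet A → μ A ≠ 0 →
        (SomePowersCommute (⇑S) (⇑R) ∨ PositiveUpperMean μ (⇑S) (⇑R) A) →
        ∃ m n : ℕ, 1 ≤ m ∧ 1 ≤ n ∧
          μ (A ∩ (⇑T)^[m] ⁻¹' A ∩ (⇑S)^[m + n] ⁻¹' A ∩ (⇑R)^[m + 2 * n] ⁻¹' A) ≠ 0 := by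
  intro Ω _ μ _ T S R hT hS hR A hA h0 h
  have hc : PositiveUpperMean μ (⇑S) (⇑R) A := by
    rcases h with ⟨a, b, ha, hb, hcomm⟩ | h
    · exact W5h67.TR.crit_of_commute μ (⇑S) (⇑R) hS hR a b ha hb hcomm A hA h0
    · exact h
  obtain ⟨c, hc0, hfr⟩ := hc
  exact W5h67.TR.criterion μ (⇑T) (⇑S) (⇑R) hT hS hR A hA c hc0 hfr

end Pool.Agent.Results.MP_cfac66_an.TwoCommute
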